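import Pool.Agent.W979.TE.Defs3
import Pool.Agent.W715.BC.Fin1

set_option autoImplicit false

open Classical

namespace Pool.Agent.W737.TE3

open Pool.Agent.W715.BC
open Pool.Agent.W979.TE3

lemma gsb_of_sblow {n : ℕ} (G : SimpleGraph (Fin n)) (U W : Finset (Fin n)) (hUW : Disjoint U W)
    (s q t : ℕ) (h : SBlow (fun (u : U) (w : W) => G.Adj u.1 w.1) s q t) :
    GSB G s q t := by
  obtain ⟨u, ρ, β, γ, h1, h2, h3, h4, h5, h6, h7, h8⟩ := h
  have hne : ∀ (u : U) (v : W), (u.1 : Fin n) ≠ v.1 := by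
    intro u v huv
    exact (Finset.disjoint_left.mp hUW u.2) (by rw [huv]; exact v.2)
  refine ⟨fun j x => (u j x).1, fun x l => (ρ x l).1, fun j i => (β j i).1,
    fun j x l => (γ j x l).1, fun j i => h1 j i, fun j i => h2 j i, fun j x l => h3 j x l,
    fun j x l => h4 j x l, fun p p' hp => h5 (Subtype.ext hp), fun p p' hp => h6 (Subtype.ext hp),
    fun j x x' l hj => h7 j x x' l (Subtype.ext hj), ?_, fun j x j' i => hne _ _,
    fun j x j' x' l => hne _ _, fun x l j i => hne _ _, fun x l j x' l' => hne _ _⟩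
  intro p p' hp
  apply h8
  obtain ⟨j, a⟩ := p
  obtain ⟨j', a'⟩ := p'
  rcases a with i | z <;> rcases a' with i' | z'
  · exact Subtype.ext hp
  · exact Subtype.ext hp
  · exact Subtype.ext hp
  · exact Subtype.ext hp

theorem up3 (hcore : S_CORE3) : S_UP3 := by
  intro s q t hs hq ht
  have hsR : (1 : ℝ) ≤ s := by exact_mod_cast hs
  have hqR : (3 : ℝ) ≤ q := by exact_mod_cast hq
  set h : ℕ := hh s q with hh0
  have hhN : h = s + (s + 1) * q := rfl
  have hhR : (h : ℝ) = s + (s + 1) * q := by rw [hhN]; push_cast; ring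
  have hpos : (0 : ℝ) < h := by rw [hhR]; positivity
  set ε : ℝ := 1 - ((s + 1 + h : ℕ) : ℝ) / ((2 * h : ℕ) : ℝ) with hε
  have hεh : ε * (2 * h) = h - s - 1 := by
    rw [hε]; push_cast; field_simp; ring
  have hε0 : 0 < ε := by
    by_contra hc
    have h1 : ε * (2 * h) ≤ 0 := mul_nonpos_of_nonpos_of_nonneg (not_lt.mp hc) (by positivity)
    rw [hεh, hhR] at h1
    nlinarith
  have hε1 : ε < 1 := by
    rw [hε]
    have : (0 : ℝ) < ((s + 1 + h : ℕ) : ℝ) / ((2 * h : ℕ) : ℝ) := by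
      push_cast; positivity
    linarith
  obtain ⟨K, hK, hreg⟩ := Pool.Agent.W247.BC.reg_holds ε hε0 hε1
  obtain ⟨C0, hcore⟩ := hcore s q t K hs (by omega) ht hK
  obtain ⟨C', hC'⟩ := hreg (max C0 1)
  refine ⟨C', fun n G hno => ?_⟩
  by_contra hcon
  push Not at hcon
  rw [show (2 - ((s + 1 + hh s q : ℕ) : ℝ) / ((2 * hh s q : ℕ) : ℝ)) = 1 + ε by
    rw [hε]; ring] at hcon
  obtain ⟨U, W, D, hUW, hU, hW, hD, hdU, hdW⟩ := hC' n G hcon
  apply hno
  apply gsb_of_sblow G U W hUW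
  have hN : (1 : ℝ) ≤ ((U.card + W.card : ℕ) : ℝ) := by
    have := hU.card_pos
    exact_mod_cast (by omega : 1 ≤ U.card + W.card)
  have hC1 : (1 : ℝ) ≤ max C0 1 := le_max_right _ _
  have hC0 : C0 ≤ max C0 1 := le_max_left _ _
  have hgen0 : ∀ m k : ℕ, 1 ≤ m → (k : ℝ) ≤ ε * m →
      (max C0 1) * ((U.card + W.card : ℕ) : ℝ) ^ k ≤ (D : ℝ) ^ m := by
    intro m k hm hk
    exact pow_ineq (max C0 1) _ D ε hC1 hN hD m k hm hk
  have hUne : Nonempty U := by
    obtain ⟨u, hu⟩ := hU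
    exact ⟨⟨u, hu⟩⟩
  have hcU : Fintype.card U = U.card := Fintype.card_coe U
  have hUle : (U.card : ℝ) ≤ ((U.card + W.card : ℕ) : ℝ) := by
    push_cast
    have : (0 : ℝ) ≤ (W.card : ℝ) := Nat.cast_nonneg _
    linarith
  have hgen : ∀ m k : ℕ, 1 ≤ m → (k : ℝ) ≤ ε * m →
      C0 * (Fintype.card U : ℝ) ^ k ≤ (D : ℝ) ^ m := by
    intro m k hm hk
    refine le_trans ?_ (hgen0 m k hm hk)
    rw [hcU]
    calc C0 * (U.card : ℝ) ^ k ≤ max C0 1 * (U.card : ℝ) ^ k :=
          mul_le_mul_of_nonneg_right hC0 (by positivity)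
      _ ≤ max C0 1 * ((U.card + W.card : ℕ) : ℝ) ^ k :=
          mul_le_mul_of_nonneg_left (pow_le_pow_left₀ (Nat.cast_nonneg _) hUle k) (by positivity)
  have hfilt1 : ∀ u : U, deg1 (fun (u : U) (w : W) => G.Adj u.1 w.1) u =
      (W.filter (fun w => G.Adj u.1 w)).card := by
    intro u
    unfold deg1
    rw [← Finset.card_map (Function.Embedding.subtype _)]
    congr 1
    ext v
    simp only [Finset.mem_map, Finset.mem_filter, Finset.mem_univ, true_and,
      Function.Embedding.coe_subtype]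
    constructor
    · rintro ⟨a, ha, rfl⟩
      exact ⟨a.2, ha⟩
    · rintro ⟨h1, h2⟩
      exact ⟨⟨v, h1⟩, h2, rfl⟩
  have hfilt2 : ∀ w : W, deg2 (fun (u : U) (w : W) => G.Adj u.1 w.1) w =
      (U.filter (fun u => G.Adj u w.1)).card := by
    intro w
    unfold deg2
    rw [← Finset.card_map (Function.Embedding.subtype _)]
    congr 1
    ext v
    simp only [Finset.mem_map, Finset.mem_filter, Finset.mem_univ, true_and,
      Function.Embedding.coe_subtype]
    constructor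
    · rintro ⟨a, ha, rfl⟩
      exact ⟨a.2, ha⟩
    · rintro ⟨h1, h2⟩
      exact ⟨⟨v, h1⟩, h2, rfl⟩
  apply hcore U W (fun (u : U) (w : W) => G.Adj u.1 w.1) D
  · refine ⟨?_, ?_, ?_, ?_⟩
    · intro u; rw [hfilt1]; exact (hdU u.1 u.2).1
    · intro u; rw [hfilt1]; exact (hdU u.1 u.2).2
    · intro w; rw [hfilt2]; exact (hdW w.1 w.2).1
    · intro w; rw [hfilt2]; exact (hdW w.1 w.2).2
  · have := hgen 1 0 le_rfl (by simp; exact hε0.le)
    simpa using this
  · have := hgen 3 1 (by norm_num) ?_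
    · simpa using this
    · push_cast
      have h1 : (1 : ℝ) * (2 * h) ≤ (ε * 3) * (2 * h) := by
        rw [show (ε * 3) * (2 * (h : ℝ)) = 3 * (ε * (2 * h)) by ring, hεh, hhR]
        nlinarith
      exact le_of_mul_le_mul_right h1 (by positivity)
  · apply hgen _ _ (by omega)
    rw [Nat.cast_sub (by omega)]
    push_cast
    have h1 : ((q : ℝ) - 1) * (2 * h) ≤ (ε * (2 * q + 2)) * (2 * h) := by
      rw [show (ε * (2 * q + 2)) * (2 * (h : ℝ)) = (2 * q + 2) * (ε * (2 * h)) by ring, hεh, hhR]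
      nlinarith [mul_nonneg (by linarith : (0:ℝ) ≤ s) (by linarith : (0:ℝ) ≤ (q:ℝ))]
    exact le_of_mul_le_mul_right h1 (by positivity)
  · apply hgen _ _ (by omega)
    have h5 : 1 ≤ (s + 1) * q := Nat.one_le_iff_ne_zero.mpr (by
      have : 0 < q := by omega
      positivity)
    rw [Nat.cast_sub h5]
    push_cast
    rw [hεh, hhR]
    linarith

end Pool.Agent.W737.TE3
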